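import Pool.Agent.Helper72.TH.CDefs

/-!
# Project TH, part (2): two linear forms which meet the curve in one point
-/

set_option autoImplicit false

namespace Pool.Agent.Helper41.TH

open MvPolynomial Filter Topology
open Pool.Agent.Helper29.TG
open Pool.Agent.Helper72.TH (OnC)

variable {ν : ℕ} {K : Type} [Field K]

/-- A form of three variables which is not divisible by the first one does not vanish on the
line where this variable is zero. -/
theorem bin_ne {P : MvPolynomial (Fin 3) K} {e : ℕ} (hP : P.IsHomogeneous e) {m₀ : Fin 3 →₀ ℕ}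
    (hm₀ : P.coeff m₀ ≠ 0) (h0 : m₀ 0 = 0) :
    aeval (![0, 1, Polynomial.X] : Fin 3 → Polynomial K) P ≠ 0 := by
  classical
  intro h
  have h1 := congrArg (fun q : Polynomial K => q.coeff (m₀ 2)) h
  simp only [aeval_def, eval₂_eq', Polynomial.finsetSum_coeff, Polynomial.coeff_zero] at h1
  have hdeg : ∀ m : Fin 3 →₀ ℕ, P.coeff m ≠ 0 → m 0 + m 1 + m 2 = e := by
    intro m hm
    have h2 := hP hm
    rw [Finsupp.weight_apply, Finsupp.sum_fintype _ _ (fun _ => by simp),
      Fin.sum_univ_three] at h2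
    simpa using h2
  rw [Finset.sum_eq_single m₀] at h1
  · rw [Fin.prod_univ_three] at h1
    simp only [Polynomial.algebraMap_eq, Matrix.cons_val_zero, Matrix.cons_val_one,
      Matrix.cons_val, h0, pow_zero, one_pow, mul_one, one_mul] at h1
    rw [Polynomial.coeff_C_mul, Polynomial.coeff_X_pow, if_pos rfl, mul_one] at h1
    exact hm₀ h1
  · intro m hm hne
    rw [mem_support_iff] at hm
    rw [Fin.prod_univ_three]
    simp only [Polynomial.algebraMap_eq, Matrix.cons_val_zero, Matrix.cons_val_one,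
      Matrix.cons_val, one_pow, mul_one]
    by_cases h3 : m 0 = 0
    · rw [h3, pow_zero, one_mul, Polynomial.coeff_C_mul, Polynomial.coeff_X_pow, if_neg, mul_zero]
      intro h4
      apply hne
      have h5 := hdeg m hm
      have h6 := hdeg m₀ hm₀
      ext i
      fin_cases i
      · change m 0 = m₀ 0
        omega
      · change m 1 = m₀ 1
        omega
      · change m 2 = m₀ 2
        omega
    · rw [zero_pow h3, zero_mul, mul_zero, Polynomial.coeff_zero]
  · intro hm
    exact absurd (mem_support_iff.2 hm₀) hm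

/-- A relation which is not divisible by the first variable. -/
theorem exists_rel {𝒰 : Ultrafilter ℕ} {z : ℕ → Fin 3 → K}
    (h : ∃ (P : MvPolynomial (Fin 3) K) (e : ℕ), P ≠ 0 ∧ P.IsHomogeneous e ∧
      ∀ᶠ n in (𝒰 : Filter ℕ), eval (z n) P = 0) (hz : ∀ᶠ n in (𝒰 : Filter ℕ), z n 0 ≠ 0) :
    ∃ (P : MvPolynomial (Fin 3) K) (e : ℕ) (m₀ : Fin 3 →₀ ℕ), P.IsHomogeneous e ∧
      P.coeff m₀ ≠ 0 ∧ m₀ 0 = 0 ∧ ∀ᶠ n in (𝒰 : Filter ℕ), eval (z n) P = 0 := by
  classical
  obtain ⟨P, e, hP0, hP, hev⟩ := h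
  induction e using Nat.strong_induction_on generalizing P with
  | _ e ih =>
    by_cases hd : (X 0 : MvPolynomial (Fin 3) K) ∣ P
    · obtain ⟨Q, rfl⟩ := hd
      have hQ0 : Q ≠ 0 := right_ne_zero_of_mul hP0
      have hcf : ∀ m : Fin 3 →₀ ℕ, Q.coeff m ≠ 0 → m.degree + 1 = e := by
        intro m hm
        have h1 : (X 0 * Q).coeff (Finsupp.single 0 1 + m) ≠ 0 := by
          rwa [coeff_X_mul]
        have h2 := hP.coeff_eq_zero (d := Finsupp.single 0 1 + m)
        by_contra h3
        refine h1 (h2 ?_)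
        rw [map_add, Finsupp.degree_single]
        omega
      obtain ⟨m₁, hm₁⟩ : ∃ m, Q.coeff m ≠ 0 := by
        by_contra h3
        push Not at h3
        exact hQ0 (ext _ _ h3)
      have he := hcf m₁ hm₁
      refine ih (e - 1) (by omega) Q hQ0 ?_ ?_
      · intro m hm
        have h4 := hcf m hm
        rw [Finsupp.degree_eq_weight_one] at h4
        change Finsupp.weight 1 m = e - 1
        have h5 : Finsupp.weight (1 : Fin 3 → ℕ) m + 1 = e := h4
        omega
      · filter_upwards [hev, hz] with n h4 h5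
        rw [map_mul, eval_X] at h4
        exact (mul_eq_zero.1 h4).resolve_left h5
    · have h1 : ∃ m₀ : Fin 3 →₀ ℕ, P.coeff m₀ ≠ 0 ∧ m₀ 0 = 0 := by
        by_contra h2
        push Not at h2
        apply hd
        rw [X_dvd_iff_modMonomial_eq_zero]
        ext m
        rw [coeff_zero]
        by_cases h3 : Finsupp.single 0 1 ≤ m
        · rw [coeff_modMonomial_of_le _ h3]
        · rw [coeff_modMonomial_of_not_le _ h3]
          by_contra h4
          apply h3
          rw [Finsupp.single_le_iff]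
          have := h2 m h4
          omega
      obtain ⟨m₀, h1, h2⟩ := h1
      exact ⟨P, e, m₀, hP, h1, h2, hev⟩

/-- The linear form with given coefficients. -/
noncomputable def fm (b : Fin (ν + 1) → K) : MvPolynomial (Fin (ν + 1)) K := ∑ k, C (b k) * X k

theorem fm_hom (b : Fin (ν + 1) → K) : (fm b).IsHomogeneous 1 :=
  IsHomogeneous.sum _ _ _ fun k _ => isHomogeneous_C_mul_X (b k) k

theorem eval_fm (b x : Fin (ν + 1) → K) : eval x (fm b) = lin b x := by
  unfold fm lin
  rw [map_sum]
  exact Finset.sum_congr rfl fun k _ => by rw [map_mul, eval_C, eval_X]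

theorem fm_single (i : Fin (ν + 1)) : fm (Pi.single i (1 : K)) = X i := by
  classical
  unfold fm
  rw [Finset.sum_eq_single i]
  · rw [Pi.single_eq_same, map_one, one_mul]
  · intro k _ hk
    rw [Pi.single_eq_of_ne hk, map_zero, zero_mul]
  · intro h
    exact absurd (Finset.mem_univ i) h

/-- The points of the curve in a hyperplane are finite in number. -/
theorem finite_sec {L : Type} [Field L] [Algebra K L] {𝒰 : Ultrafilter ℕ}
    {x : ℕ → Fin (ν + 1) → K} (hcur : OnC 𝒰 x) {b : Fin (ν + 1) → K}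
    (hb : ∀ᶠ n in (𝒰 : Filter ℕ), lin b (x n) ≠ 0) (i : Fin (ν + 1)) :
    {p : Fin (ν + 1) → L | (∀ (g : MvPolynomial (Fin (ν + 1)) K) (e : ℕ), g.IsHomogeneous e →
      (∀ᶠ n in (𝒰 : Filter ℕ), eval (x n) g = 0) → aeval p g = 0) ∧ aeval p (fm b) = 0 ∧
      p i = 1}.Finite := by
  classical
  have h1 : ∀ j : Fin (ν + 1), ∃ q : Polynomial K, q ≠ 0 ∧ ∀ p : Fin (ν + 1) → L,
      (∀ (g : MvPolynomial (Fin (ν + 1)) K) (e : ℕ), g.IsHomogeneous e →
        (∀ᶠ n in (𝒰 : Filter ℕ), eval (x n) g = 0) → aeval p g = 0) → aeval p (fm b) = 0 →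
        p i = 1 → Polynomial.aeval (p j) q = 0 := by
    intro j
    obtain ⟨P, e, m₀, hP, hm₀, h0, hev⟩ := exists_rel
      (hcur ![b, Pi.single i 1, Pi.single j 1]) hb
    refine ⟨_, bin_ne hP hm₀ h0, fun p hp hpb hpi => ?_⟩
    have h2 := hp (aeval (fun k => fm (![b, Pi.single i 1, Pi.single j 1] k)) P) (1 * e)
      (hP.aeval _ fun k => fm_hom _) (by
        filter_upwards [hev] with n hn
        have h3 : eval (x n) (aeval (fun k => fm (![b, Pi.single i 1, Pi.single j 1] k)) P) =
            eval (pl ![b, Pi.single i 1, Pi.single j 1] (x n)) P := by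
          rw [← coe_aeval_eq_eval, ← coe_aeval_eq_eval]
          change aeval (x n) (aeval _ P) = aeval _ P
          rw [comp_aeval_apply]
          congr 2
          funext k
          have h4 := eval_fm (![b, Pi.single i 1, Pi.single j 1] k) (x n)
          rw [← coe_aeval_eq_eval] at h4
          exact h4
        rw [h3]
        exact hn)
    rw [comp_aeval_apply] at h2
    rw [comp_aeval_apply]
    convert h2 using 3
    funext k
    fin_cases k
    · change Polynomial.aeval (p j) (0 : Polynomial K) = aeval p (fm b)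
      rw [map_zero, hpb]
    · change Polynomial.aeval (p j) (1 : Polynomial K) = aeval p (fm (Pi.single i (1 : K)))
      rw [map_one, fm_single, aeval_X, hpi]
    · change Polynomial.aeval (p j) (Polynomial.X : Polynomial K) =
        aeval p (fm (Pi.single j (1 : K)))
      rw [Polynomial.aeval_X, fm_single, aeval_X]
  choose q hq0 hq using h1
  refine (Set.Finite.pi' (t := fun j => (q j).rootSet L) fun j =>
    Polynomial.rootSet_finite (q j) L).subset ?_
  rintro p ⟨hp, hpb, hpi⟩ j
  rw [Polynomial.mem_rootSet]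
  exact ⟨hq0 j, hq j p hp hpb hpi⟩

/-- A linear form through `y` which avoids finitely many points and the sequence. -/
theorem exists_fm [Infinite K] {L : Type} [Field L] [Algebra K L] {𝒰 : Ultrafilter ℕ}
    {x : ℕ → Fin (ν + 1) → K} {y : Fin (ν + 1) → K}
    (hne : ∀ᶠ n in (𝒰 : Filter ℕ), cr (x n) y ≠ 0) {T : Set (Fin (ν + 1) → L)} (hT : T.Finite)
    (hTy : ∀ p ∈ T, cr p (fun i => algebraMap K L (y i)) ≠ 0) :
    ∃ b : Fin (ν + 1) → K, lin b y = 0 ∧ (∀ᶠ n in (𝒰 : Filter ℕ), lin b (x n) ≠ 0) ∧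
      ∀ p ∈ T, aeval p (fm b) ≠ 0 := by
  classical
  have : Finite T := hT
  -- the coefficient vectors
  let w : (Fin (ν + 1) × Fin (ν + 1) → K) →ₗ[K] (Fin (ν + 1) → K) :=
    ∑ q : Fin (ν + 1) × Fin (ν + 1), (LinearMap.toSpanSingleton K _
      (fun k => y q.2 * (Pi.single q.1 1 : Fin (ν + 1) → K) k -
        y q.1 * (Pi.single q.2 1 : Fin (ν + 1) → K) k)).comp (LinearMap.proj q)
  have hw : ∀ c k, w c k = ∑ q : Fin (ν + 1) × Fin (ν + 1), c q *
      (y q.2 * (Pi.single q.1 1 : Fin (ν + 1) → K) k -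
        y q.1 * (Pi.single q.2 1 : Fin (ν + 1) → K) k) := by
    intro c k
    simp [w, LinearMap.sum_apply, Finset.sum_apply]
  have hsum : ∀ {L' : Type} [Field L'] [Algebra K L'] (c : Fin (ν + 1) × Fin (ν + 1) → K)
      (p : Fin (ν + 1) → L'), ∑ k, algebraMap K L' (w c k) * p k =
        ∑ q, algebraMap K L' (c q) * cr p (fun i => algebraMap K L' (y i)) q := by
    intro L' _ _ c p
    simp only [hw, map_sum, Finset.sum_mul]
    rw [Finset.sum_comm]
    refine Finset.sum_congr rfl fun q _ => ?_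
    have h1 : ∀ i : Fin (ν + 1), ∑ k, algebraMap K L' ((Pi.single i 1 : Fin (ν + 1) → K) k) *
        p k = p i := by
      intro i
      rw [Finset.sum_eq_single i]
      · rw [Pi.single_eq_same, map_one, one_mul]
      · intro k _ hk
        rw [Pi.single_eq_of_ne hk, map_zero, zero_mul]
      · intro h
        exact absurd (Finset.mem_univ i) h
    have h2 : ∀ k, algebraMap K L' (c q * (y q.2 * (Pi.single q.1 1 : Fin (ν + 1) → K) k -
        y q.1 * (Pi.single q.2 1 : Fin (ν + 1) → K) k)) * p k =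
        algebraMap K L' (c q) * (algebraMap K L' (y q.2) *
          (algebraMap K L' ((Pi.single q.1 1 : Fin (ν + 1) → K) k) * p k) -
          algebraMap K L' (y q.1) *
          (algebraMap K L' ((Pi.single q.2 1 : Fin (ν + 1) → K) k) * p k)) := by
      intro k
      rw [map_mul, map_sub, map_mul, map_mul]
      ring
    rw [Finset.sum_congr rfl fun k _ => h2 k, ← Finset.mul_sum, Finset.sum_sub_distrib,
      ← Finset.mul_sum, ← Finset.mul_sum, h1, h1]
    unfold cr
    ring
  have hlin : ∀ (c : Fin (ν + 1) × Fin (ν + 1) → K) (p : Fin (ν + 1) → K), lin (w c) p =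
      ∑ q, c q * cr p y q := fun c p => by
    have h1 := hsum (L' := K) c p
    simpa [lin] using h1
  have haev : ∀ (c : Fin (ν + 1) × Fin (ν + 1) → K) (p : Fin (ν + 1) → L),
      aeval p (fm (w c)) = ∑ q, algebraMap K L (c q) *
        cr p (fun i => algebraMap K L (y i)) q := fun c p => by
    rw [← hsum]
    unfold fm
    rw [map_sum]
    exact Finset.sum_congr rfl fun k _ => by rw [map_mul, aeval_C, aeval_X]
  let S : Option T → Submodule K (Fin (ν + 1) × Fin (ν + 1) → K) := fun o =>
    match o with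
    | none =>
      { carrier := {c | ∀ᶠ n in (𝒰 : Filter ℕ), lin (w c) (x n) = 0}
        add_mem' := by
          intro c c' h h'
          simp only [Set.mem_ofPred_eq] at h h' ⊢
          filter_upwards [h, h'] with n h1 h2
          rw [hlin] at h1 h2 ⊢
          simp only [Pi.add_apply, add_mul, Finset.sum_add_distrib]
          rw [h1, h2, add_zero]
        zero_mem' := by
          simp only [Set.mem_ofPred_eq]
          refine Eventually.of_forall fun n => ?_
          rw [hlin]
          simp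
        smul_mem' := by
          intro r c h
          simp only [Set.mem_ofPred_eq] at h ⊢
          filter_upwards [h] with n h1
          rw [hlin] at h1 ⊢
          simp only [Pi.smul_apply, smul_eq_mul, mul_assoc]
          rw [← Finset.mul_sum, h1, mul_zero] }
    | some p =>
      { carrier := {c | aeval p.1 (fm (w c)) = 0}
        add_mem' := by
          intro c c' h h'
          simp only [Set.mem_ofPred_eq] at h h' ⊢
          rw [haev] at h h' ⊢
          simp only [Pi.add_apply, map_add, add_mul, Finset.sum_add_distrib]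
          rw [h, h', add_zero]
        zero_mem' := by
          simp only [Set.mem_ofPred_eq]
          rw [haev]
          simp
        smul_mem' := by
          intro r c h
          simp only [Set.mem_ofPred_eq] at h ⊢
          rw [haev] at h ⊢
          simp only [Pi.smul_apply, smul_eq_mul, map_mul, mul_assoc]
          rw [← Finset.mul_sum, h, mul_zero] }
  have hS : ∀ o, S o ≠ ⊤ := by
    intro o ho
    have h1 : ∀ c, c ∈ S o := fun c => ho ▸ Submodule.mem_top
    cases o with
    | none =>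
      have h2 : ∀ q, ∀ᶠ n in (𝒰 : Filter ℕ), cr (x n) y q = 0 := by
        intro q
        have h3 : ∀ᶠ n in (𝒰 : Filter ℕ), lin (w (Pi.single q 1)) (x n) = 0 := h1 (Pi.single q 1)
        filter_upwards [h3] with n h4
        rw [hlin, Finset.sum_eq_single q] at h4
        · rwa [Pi.single_eq_same, one_mul] at h4
        · intro k _ hk
          rw [Pi.single_eq_of_ne hk, zero_mul]
        · intro h
          exact absurd (Finset.mem_univ q) h
      obtain ⟨n, h3, h4⟩ := ((eventually_all.2 h2).and hne).exists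
      exact h4 (funext h3)
    | some p =>
      refine hTy p.1 p.2 (funext fun q => ?_)
      have h3 : aeval p.1 (fm (w (Pi.single q 1))) = 0 := h1 (Pi.single q 1)
      rw [haev, Finset.sum_eq_single q] at h3
      · rwa [Pi.single_eq_same, map_one, one_mul] at h3
      · intro k _ hk
        rw [Pi.single_eq_of_ne hk, map_zero, zero_mul]
      · intro h
        exact absurd (Finset.mem_univ q) h
  obtain ⟨c, hc⟩ := Submodule.exists_forall_notMem_of_forall_ne_top S hS
  refine ⟨w c, ?_, ?_, fun p hp => ?_⟩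
  · rw [hlin]
    refine Finset.sum_eq_zero fun q _ => ?_
    unfold cr
    ring
  · have h1 : ¬ ∀ᶠ n in (𝒰 : Filter ℕ), lin (w c) (x n) = 0 := hc none
    rwa [← Ultrafilter.eventually_not] at h1
  · exact hc (some ⟨p, hp⟩)

theorem exists_lin [Infinite K] {L : Type} [Field L] [IsAlgClosed L] [Algebra K L]
    {𝒰 : Ultrafilter ℕ} {x : ℕ → Fin (ν + 1) → K} (hcur : OnC 𝒰 x) {y : Fin (ν + 1) → K}
    (hne : ∀ᶠ n in (𝒰 : Filter ℕ), cr (x n) y ≠ 0) :
    ∃ l₁ l₂ : MvPolynomial (Fin (ν + 1)) K, l₁.IsHomogeneous 1 ∧ l₂.IsHomogeneous 1 ∧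
      eval y l₁ = 0 ∧ eval y l₂ = 0 ∧ (∀ᶠ n in (𝒰 : Filter ℕ), eval (x n) l₁ ≠ 0) ∧
      (∀ᶠ n in (𝒰 : Filter ℕ), eval (x n) l₂ ≠ 0) ∧
      ∀ p : Fin (ν + 1) → L, (∀ (g : MvPolynomial (Fin (ν + 1)) K) (e : ℕ), g.IsHomogeneous e →
        (∀ᶠ n in (𝒰 : Filter ℕ), eval (x n) g = 0) → aeval p g = 0) → aeval p l₁ = 0 →
        aeval p l₂ = 0 → cr p (fun i => algebraMap K L (y i)) = 0 := by
  classical
  obtain ⟨b, hb1, hb2, -⟩ := exists_fm (L := L) hne (T := ∅) Set.finite_empty (by simp)
  let T : Set (Fin (ν + 1) → L) := {p | ((∀ (g : MvPolynomial (Fin (ν + 1)) K) (e : ℕ),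
      g.IsHomogeneous e → (∀ᶠ n in (𝒰 : Filter ℕ), eval (x n) g = 0) → aeval p g = 0) ∧
      aeval p (fm b) = 0 ∧ ∃ i, p i = 1) ∧ cr p (fun i => algebraMap K L (y i)) ≠ 0}
  have hT : T.Finite := by
    refine (Set.finite_iUnion fun i => finite_sec (L := L) hcur hb2 i).subset ?_
    rintro p ⟨⟨h1, h2, i, h3⟩, -⟩
    exact Set.mem_iUnion.2 ⟨i, h1, h2, h3⟩
  obtain ⟨b', hb1', hb2', hb3'⟩ := exists_fm (L := L) hne hT fun p hp => hp.2
  refine ⟨fm b, fm b', fm_hom b, fm_hom b', ?_, ?_, ?_, ?_, ?_⟩
  · rw [eval_fm, hb1]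
  · rw [eval_fm, hb1']
  · simpa only [eval_fm] using hb2
  · simpa only [eval_fm] using hb2'
  · intro p hp h1 h2
    by_contra h3
    by_cases hp0 : p = 0
    · apply h3
      rw [hp0]
      funext q
      unfold cr
      simp
    obtain ⟨i, hi⟩ : ∃ i, p i ≠ 0 := by
      by_contra h4
      push Not at h4
      exact hp0 (funext h4)
    have hsm : ∀ (g : MvPolynomial (Fin (ν + 1)) K) (e : ℕ), g.IsHomogeneous e →
        aeval (fun j => (p i)⁻¹ * p j) g = (p i)⁻¹ ^ e * aeval p g := fun g e hg =>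
      Pool.Agent.Helper36.aeval_smul_homogeneous hg _ _
    refine hb3' (fun j => (p i)⁻¹ * p j) ⟨⟨fun g e hg hgx => ?_, ?_, i, ?_⟩, ?_⟩ ?_
    · rw [hsm g e hg, hp g e hg hgx, mul_zero]
    · rw [hsm _ _ (fm_hom b), h1, mul_zero]
    · exact inv_mul_cancel₀ hi
    · intro h4
      apply h3
      funext q
      have h5 := congrFun h4 q
      unfold cr at h5 ⊢
      simp only [Pi.zero_apply] at h5 ⊢
      have h6 : (p i)⁻¹ * (p q.1 * algebraMap K L (y q.2) - p q.2 * algebraMap K L (y q.1)) = 0 := by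
        rw [← h5]
        ring
      exact (mul_eq_zero.1 h6).resolve_left (inv_ne_zero hi)
    · rw [hsm _ _ (fm_hom b'), h2, mul_zero]

end Pool.Agent.Helper41.TH
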